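import Mathlib

/-!
Project RF: the determinantal conjecture for `A` and `R B R*`, `A`, `B` commuting normal matrices,
`R` a complex reflection (all `n`, all spectra).
-/

set_option autoImplicit false

namespace Pool.Agent.Helper2.RF

open Matrix Complex Equiv

variable {n : Type*} [Fintype n] [DecidableEq n]

/-- the products -/
noncomputable def zz (a b : n → ℂ) (σ : Perm n) : ℂ := ∏ i, (a i + b (σ i))

/-- the complex reflection `1 - (1 - ζ) w w*` -/
noncomputable def Rf (w : n → ℂ) (ζ : ℂ) : Matrix n n ℂ := 1 - (1 - ζ) • vecMulVec w (star w)

/-- the relative change of the product under the transposition `(i j)` -/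
noncomputable def tt (a b : n → ℂ) (i j : n) : ℂ :=
  (a i - a j) * (b i - b j) / ((a i + b i) * (a j + b j))

end Pool.Agent.Helper2.RF
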