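import Pool.Agent.Helper2.RF.Defs

/-!
RF/R1: the determinant.  Proof: `W = Rf w ζ`, `c = 1 - ζ`, `κ = |c|^2 = c + conj c` (as `|1 - c| = 1`),
`s i = a i + b i`, `β = ∑ |w i|^2 b i`, `B w = fun i => b i * w i`:
`diag a + W diag b W* = diag s + X Y` with the `n × Fin 2` matrix `X = [w, B w]` and the `Fin 2 × n` matrix
`Y = [- c (w* B) + κ β w* ; - conj c w*]`.  `Matrix.det_add_mul` gives
`det = (∏ s) * det (1 + Y S⁻¹ X)`; with `p0 = ∑ |w i|^2 / s i`, `p1 = ∑ |w i|^2 b i / s i`,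
`p2 = ∑ |w i|^2 (b i)^2 / s i` the 2×2 determinant is `1 + κ (p1^2 - p1 + β p0 - p0 p2)`, and
`1/2 ∑ ∑ |w i|^2 |w j|^2 tt i j = p1^2 - p1 + β p0 - p0 p2` (put `a i = s i - b i`; `∑ |w i|^2 = 1`).
-/

set_option autoImplicit false

namespace Pool.Agent.Helper2.RF

open Matrix Complex Equiv

variable {n : Type*} [Fintype n] [DecidableEq n]

theorem rf_nsq (z : ℂ) : (normSq z : ℂ) = z * star z := (Complex.mul_conj z).symm

/-- the entries of the reflection -/
theorem rf_entry (w : n → ℂ) (ζ : ℂ) (i k : n) :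
    Rf w ζ i k = (if i = k then 1 else 0) - (1 - ζ) * (w i * star (w k)) := by
  unfold Rf
  rw [Matrix.sub_apply, Matrix.smul_apply, Matrix.one_apply, Matrix.vecMulVec_apply, smul_eq_mul]
  rfl

/-- the entries of `W diag b W*` -/
theorem rf_conj (b w : n → ℂ) (ζ : ℂ) (i j : n) :
    (Rf w ζ * diagonal b * star (Rf w ζ)) i j =
      (if i = j then b i else 0) - star (1 - ζ) * star (w j) * w i * b i -
        (1 - ζ) * w i * star (w j) * b j +
        ((1 - ζ) * star (1 - ζ) * (w i * star (w j))) * ∑ k, (w k * star (w k)) * b k := by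
  rw [Matrix.mul_apply]
  have h1 : ∀ k, (Rf w ζ * diagonal b) i k * star (Rf w ζ) k j =
      (if i = k then (if j = k then b k else 0) else 0) -
      (if i = k then star (1 - ζ) * star (w j) * w k * b k else 0) -
      (if j = k then (1 - ζ) * w i * star (w k) * b k else 0) +
      ((1 - ζ) * star (1 - ζ) * (w i * star (w j))) * ((w k * star (w k)) * b k) := by
    intro k
    rw [Matrix.mul_diagonal, Matrix.star_apply, rf_entry, rf_entry, star_sub, star_mul', star_mul',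
      star_star]
    by_cases h1 : i = k
    · by_cases h2 : j = k
      · simp only [h1, h2, if_true, star_one]
        ring
      · simp only [h1, h2, if_true, if_false, star_zero]
        ring
    · by_cases h2 : j = k
      · simp only [h1, h2, if_true, if_false, star_one]
        ring
      · simp only [h1, h2, if_false, star_zero]
        ring
  rw [Finset.sum_congr rfl fun k _ => h1 k, Finset.sum_add_distrib, Finset.sum_sub_distrib,
    Finset.sum_sub_distrib, Finset.sum_ite_eq, Finset.sum_ite_eq, Finset.sum_ite_eq,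
    ← Finset.mul_sum]
  simp only [Finset.mem_univ, if_true]
  by_cases h2 : i = j
  · simp only [h2, if_true]
  · rw [if_neg h2, if_neg (fun h => h2 h.symm)]

/-- the double sum -/
theorem rf_sum (a b W : n → ℂ) (hW : ∑ i, W i = 1) (hs : ∀ i, a i + b i ≠ 0) :
    ∑ i, ∑ j, W i * W j * tt a b i j =
      2 * ((∑ i, W i * b i) * (∑ i, W i * (a i + b i)⁻¹) - ∑ i, W i * b i * (a i + b i)⁻¹ +
        (∑ i, W i * b i * (a i + b i)⁻¹) ^ 2 -
        (∑ i, W i * (a i + b i)⁻¹) * (∑ i, W i * b i ^ 2 * (a i + b i)⁻¹)) := by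
  have h1 : ∀ i j, W i * W j * tt a b i j =
      (W i * b i) * (W j * (a j + b j)⁻¹) - W i * (W j * b j * (a j + b j)⁻¹) -
      (W i * b i * (a i + b i)⁻¹) * W j + (W i * (a i + b i)⁻¹) * (W j * b j) -
      (W i * b i ^ 2 * (a i + b i)⁻¹) * (W j * (a j + b j)⁻¹) +
      2 * ((W i * b i * (a i + b i)⁻¹) * (W j * b j * (a j + b j)⁻¹)) -
      (W i * (a i + b i)⁻¹) * (W j * b j ^ 2 * (a j + b j)⁻¹) := by
    intro i j
    have e1 := hs i
    have e2 := hs j
    unfold tt
    field_simp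
    ring
  have h2 : ∑ i, ∑ j, W i * W j * tt a b i j =
      (∑ i, W i * b i) * (∑ j, W j * (a j + b j)⁻¹) -
      (∑ i, W i) * (∑ j, W j * b j * (a j + b j)⁻¹) -
      (∑ i, W i * b i * (a i + b i)⁻¹) * (∑ j, W j) +
      (∑ i, W i * (a i + b i)⁻¹) * (∑ j, W j * b j) -
      (∑ i, W i * b i ^ 2 * (a i + b i)⁻¹) * (∑ j, W j * (a j + b j)⁻¹) +
      2 * ((∑ i, W i * b i * (a i + b i)⁻¹) * (∑ j, W j * b j * (a j + b j)⁻¹)) -
      (∑ i, W i * (a i + b i)⁻¹) * (∑ j, W j * b j ^ 2 * (a j + b j)⁻¹) := by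
    simp only [Finset.sum_mul_sum, Finset.mul_sum (s := Finset.univ) (a := (2 : ℂ)),
      ← Finset.sum_sub_distrib, ← Finset.sum_add_distrib]
    exact Finset.sum_congr rfl fun i _ => Finset.sum_congr rfl fun j _ => h1 i j
  rw [h2, hW]
  ring

/-- the two factors -/
def rfX (b w : n → ℂ) : Matrix n (Fin 2) ℂ := Matrix.of fun i => ![w i, b i * w i]

def rfY (b w : n → ℂ) (c β : ℂ) : Matrix (Fin 2) n ℂ :=
  Matrix.of ![fun i => (-c * b i + c * star c * β) * star (w i), fun i => -(star c) * star (w i)]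

theorem rf_split (a b w : n → ℂ) (ζ : ℂ) :
    diagonal a + Rf w ζ * diagonal b * star (Rf w ζ) =
      diagonal (fun i => a i + b i) +
        rfX b w * rfY b w (1 - ζ) (∑ k, (w k * star (w k)) * b k) := by
  ext i j
  rw [Matrix.add_apply, Matrix.add_apply, rf_conj, Matrix.mul_apply, Fin.sum_univ_two,
    Matrix.diagonal_apply, Matrix.diagonal_apply]
  simp only [rfX, rfY, Matrix.of_apply, Matrix.cons_val_zero, Matrix.cons_val_one]
  by_cases h : i = j
  · simp only [h, if_true]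
    ring
  · simp only [h, if_false]
    ring

theorem rf_det (a b w : n → ℂ) (ζ : ℂ) (hζ : normSq ζ = 1) (hw : ∑ i, normSq (w i) = 1)
    (hs : ∀ i, a i + b i ≠ 0) :
    (diagonal a + Rf w ζ * diagonal b * star (Rf w ζ)).det
      = zz a b 1 * (1 + (normSq (1 - ζ) : ℂ) / 2
          * ∑ i, ∑ j, (normSq (w i) : ℂ) * (normSq (w j) : ℂ) * tt a b i j) := by
  obtain ⟨c, hc⟩ : ∃ c : ℂ, c = 1 - ζ := ⟨_, rfl⟩
  have hcc : c * star c = c + star c := by
    have h1 : ζ * star ζ = 1 := by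
      rw [← rf_nsq, hζ]
      norm_num
    rw [hc, star_sub, star_one]
    linear_combination h1
  have hW : ∑ i, w i * star (w i) = 1 := by
    have h1 : ((∑ i, normSq (w i) : ℝ) : ℂ) = 1 := by
      rw [hw]
      norm_num
    push_cast at h1
    rw [← h1]
    exact Finset.sum_congr rfl fun i _ => (rf_nsq _).symm
  have hsum := rf_sum a b (fun i => w i * star (w i)) hW hs
  simp only [rf_nsq]
  rw [hsum, rf_split, ← hc]
  obtain ⟨β, hβ⟩ : ∃ β : ℂ, β = ∑ k, (w k * star (w k)) * b k := ⟨_, rfl⟩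
  rw [← hβ]
  have hfac : diagonal (fun i => a i + b i) + rfX b w * rfY b w c β =
      diagonal (fun i => a i + b i) *
        (1 + (diagonal (fun i => (a i + b i)⁻¹) * rfX b w) * rfY b w c β) := by
    rw [mul_add, mul_one, ← Matrix.mul_assoc, ← Matrix.mul_assoc, Matrix.diagonal_mul_diagonal]
    have h1 : (diagonal fun i => (a i + b i) * (a i + b i)⁻¹ : Matrix n n ℂ) = 1 := by
      rw [← Matrix.diagonal_one]
      congr 1
      ext i
      exact mul_inv_cancel₀ (hs i)
    rw [h1, Matrix.one_mul]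
  rw [hfac, Matrix.det_mul, Matrix.det_diagonal, Matrix.det_one_add_mul_comm, Matrix.det_fin_two]
  have hz : zz a b 1 = ∏ i, (a i + b i) := rfl
  rw [hz]
  have hent : ∀ k l : Fin 2, (rfY b w c β * (diagonal (fun i => (a i + b i)⁻¹) * rfX b w)) k l =
      ∑ i, rfY b w c β k i * ((a i + b i)⁻¹ * rfX b w i l) := by
    intro k l
    rw [Matrix.mul_apply]
    exact Finset.sum_congr rfl fun i _ => by rw [Matrix.diagonal_mul]
  obtain ⟨p0, hp0⟩ : ∃ p0 : ℂ, p0 = ∑ i, w i * star (w i) * (a i + b i)⁻¹ := ⟨_, rfl⟩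
  obtain ⟨p1, hp1⟩ : ∃ p1 : ℂ, p1 = ∑ i, w i * star (w i) * b i * (a i + b i)⁻¹ := ⟨_, rfl⟩
  obtain ⟨p2, hp2⟩ : ∃ p2 : ℂ, p2 = ∑ i, w i * star (w i) * b i ^ 2 * (a i + b i)⁻¹ := ⟨_, rfl⟩
  have e00 : (rfY b w c β * (diagonal (fun i => (a i + b i)⁻¹) * rfX b w)) 0 0 =
      -c * p1 + c * star c * β * p0 := by
    rw [hent, hp1, hp0, Finset.mul_sum, Finset.mul_sum, ← Finset.sum_add_distrib]
    refine Finset.sum_congr rfl fun i _ => ?_
    simp only [rfX, rfY, Matrix.of_apply, Matrix.cons_val_zero]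
    ring
  have e01 : (rfY b w c β * (diagonal (fun i => (a i + b i)⁻¹) * rfX b w)) 0 1 =
      -c * p2 + c * star c * β * p1 := by
    rw [hent, hp2, hp1, Finset.mul_sum, Finset.mul_sum, ← Finset.sum_add_distrib]
    refine Finset.sum_congr rfl fun i _ => ?_
    simp only [rfX, rfY, Matrix.of_apply, Matrix.cons_val_zero, Matrix.cons_val_one]
    ring
  have e10 : (rfY b w c β * (diagonal (fun i => (a i + b i)⁻¹) * rfX b w)) 1 0 =
      -(star c) * p0 := by
    rw [hent, hp0, Finset.mul_sum]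
    refine Finset.sum_congr rfl fun i _ => ?_
    simp only [rfX, rfY, Matrix.of_apply, Matrix.cons_val_zero, Matrix.cons_val_one]
    ring
  have e11 : (rfY b w c β * (diagonal (fun i => (a i + b i)⁻¹) * rfX b w)) 1 1 =
      -(star c) * p1 := by
    rw [hent, hp1, Finset.mul_sum]
    refine Finset.sum_congr rfl fun i _ => ?_
    simp only [rfX, rfY, Matrix.of_apply, Matrix.cons_val_zero, Matrix.cons_val_one]
    ring
  simp only [Matrix.add_apply, e00, e01, e10, e11, ← hp0, ← hp1, ← hp2]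
  have o1 : (1 : Matrix (Fin 2) (Fin 2) ℂ) 0 0 = 1 := rfl
  have o2 : (1 : Matrix (Fin 2) (Fin 2) ℂ) 0 1 = 0 := rfl
  have o3 : (1 : Matrix (Fin 2) (Fin 2) ℂ) 1 0 = 0 := rfl
  have o4 : (1 : Matrix (Fin 2) (Fin 2) ℂ) 1 1 = 1 := rfl
  rw [o1, o2, o3, o4]
  linear_combination ((∏ i, (a i + b i)) * p1) * hcc

end Pool.Agent.Helper2.RF
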