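import Pool.Agent.Helper2.RF.Defs

/-!
RF/R2: transpositions and 3-cycles.  Split the products: all factors except those of `i`, `j` (and `k`)
are `a l + b l` on both sides.  `rf_tri`: the 3×3 identity `even products = odd products` for the
matrix `a x + b y` (rank ≤ 2), by `ring`.
-/

set_option autoImplicit false

namespace Pool.Agent.Helper2.RF

open Matrix Complex Equiv

variable {n : Type*} [Fintype n] [DecidableEq n]

/-- splitting off two factors -/
theorem split_two (F : n → ℂ) {i j : n} (h : i ≠ j) :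
    ∏ l, F l = F i * (F j * ∏ l ∈ (Finset.univ.erase i).erase j, F l) := by
  rw [Finset.mul_prod_erase _ _ (Finset.mem_erase.2 ⟨h.symm, Finset.mem_univ j⟩),
    Finset.mul_prod_erase _ _ (Finset.mem_univ i)]

/-- splitting off three factors -/
theorem split_three (F : n → ℂ) {i j k : n} (hij : i ≠ j) (hik : i ≠ k) (hjk : j ≠ k) :
    ∏ l, F l = F i * (F j * (F k * ∏ l ∈ ((Finset.univ.erase i).erase j).erase k, F l)) := by
  rw [Finset.mul_prod_erase _ _ (Finset.mem_erase.2 ⟨hjk.symm,
      Finset.mem_erase.2 ⟨hik.symm, Finset.mem_univ k⟩⟩),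
    Finset.mul_prod_erase _ _ (Finset.mem_erase.2 ⟨hij.symm, Finset.mem_univ j⟩),
    Finset.mul_prod_erase _ _ (Finset.mem_univ i)]

theorem rf_swap (a b : n → ℂ) (hs : ∀ i, a i + b i ≠ 0) (i j : n) :
    zz a b (swap i j) - zz a b 1 = zz a b 1 * tt a b i j := by
  by_cases hij : i = j
  · subst hij
    rw [swap_self]
    unfold tt
    rw [sub_self (a i), zero_mul, zero_div, mul_zero]
    exact sub_self _
  · unfold zz tt
    rw [split_two (fun l => a l + b ((swap i j) l)) hij,
      split_two (fun l => a l + b ((1 : Perm n) l)) hij]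
    have h1 : ∏ l ∈ (Finset.univ.erase i).erase j, (a l + b ((swap i j) l)) =
        ∏ l ∈ (Finset.univ.erase i).erase j, (a l + b ((1 : Perm n) l)) := by
      refine Finset.prod_congr rfl fun l hl => ?_
      rw [Finset.mem_erase, Finset.mem_erase] at hl
      rw [swap_apply_of_ne_of_ne hl.2.1 hl.1, Perm.one_apply]
    simp only [swap_apply_left, swap_apply_right, Perm.one_apply] at h1 ⊢
    rw [h1]
    have hi := hs i
    have hj := hs j
    field_simp
    ring

theorem rf_tri (a b : n → ℂ) (i j k : n) (hij : i ≠ j) (hik : i ≠ k) (hjk : j ≠ k) :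
    zz a b (swap i j * swap j k) + zz a b (swap j k * swap i j) + zz a b 1
      = zz a b (swap i j) + zz a b (swap j k) + zz a b (swap i k) := by
  have key : ∀ σ : Perm n, (∀ l, l ≠ i → l ≠ j → l ≠ k → σ l = l) →
      zz a b σ = (a i + b (σ i)) * ((a j + b (σ j)) * ((a k + b (σ k)) *
        ∏ l ∈ ((Finset.univ.erase i).erase j).erase k, (a l + b l))) := by
    intro σ hσ
    unfold zz
    rw [split_three (fun l => a l + b (σ l)) hij hik hjk]
    have h1 : ∏ l ∈ ((Finset.univ.erase i).erase j).erase k, (a l + b (σ l)) =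
        ∏ l ∈ ((Finset.univ.erase i).erase j).erase k, (a l + b l) := by
      refine Finset.prod_congr rfl fun l hl => ?_
      rw [Finset.mem_erase, Finset.mem_erase, Finset.mem_erase] at hl
      rw [hσ l hl.2.2.1 hl.2.1 hl.1]
    rw [h1]
  have e1 : ∀ l, l ≠ i → l ≠ j → l ≠ k → swap i j l = l := fun l h1 h2 _ =>
    swap_apply_of_ne_of_ne h1 h2
  have e2 : ∀ l, l ≠ i → l ≠ j → l ≠ k → swap j k l = l := fun l _ h2 h3 =>
    swap_apply_of_ne_of_ne h2 h3
  have e3 : ∀ l, l ≠ i → l ≠ j → l ≠ k → swap i k l = l := fun l h1 _ h3 =>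
    swap_apply_of_ne_of_ne h1 h3
  rw [key (swap i j * swap j k) (fun l h1 h2 h3 => by
      rw [Perm.mul_apply, e2 l h1 h2 h3, e1 l h1 h2 h3]),
    key (swap j k * swap i j) (fun l h1 h2 h3 => by
      rw [Perm.mul_apply, e1 l h1 h2 h3, e2 l h1 h2 h3]),
    key 1 (fun l _ _ _ => rfl), key _ e1, key _ e2, key _ e3]
  simp only [Perm.mul_apply, Perm.one_apply, swap_apply_left, swap_apply_right,
    swap_apply_of_ne_of_ne hij hik, swap_apply_of_ne_of_ne hik.symm hjk.symm,
    swap_apply_of_ne_of_ne hij.symm hjk]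
  ring

end Pool.Agent.Helper2.RF
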