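import Mathlib

/-!
RF/R3: the inequality for four points.

Proof.  Sort: `q1 ≥ q2 ≥ q3 ≥ q4` (the statement is symmetric; do the sorted case as a lemma and
permute).  Find `r123, r124, r134, r234 ≥ 0` with `∑ (T ∋ i,j) r_T ≤ q_i q_j` for the six pairs and
`e2 - ∑ r_T ≤ 1/4`, `e2 = ∑ (i<j) q_i q_j`.  Then `∑ q_i q_j m_ij = ∑ (q_i q_j - ∑ r_T) m_ij +
∑ r_T (m_ij + m_jk + m_ik) ≤ M (e2 - 3 R + 2 R) = M (e2 - R) ≤ M / 4`, `R = ∑ r_T`.
Case `q1 ≥ q2 + q3`: `r123 = q2 q3`, `r124 = q2 q4`, `r134 = q3 q4`, `r234 = 0`, `e2 - R = q1 (1 - q1)`.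
Case `q1 ≤ q2 + q3`: `r124 = x`, `r134 = q1 q4 - x`, `r123 = y`, `r234 = q2 q3 - y` with
`x + y = q1 q4 + q2 q3 - q3 q4`, `y - x = q2 (q3 - q4)`; `e2 - R = (q1 + q4) (q2 + q3) ≤ 1/4`.
-/

set_option autoImplicit false

namespace Pool.Agent.Helper2.RF

/-- the statement for given weights -/
private def R3P (q1 q2 q3 q4 : ℝ) : Prop :=
  ∀ m12 m13 m14 m23 m24 m34 M : ℝ, 0 ≤ M → m12 ≤ M → m13 ≤ M → m14 ≤ M → m23 ≤ M → m24 ≤ M →
    m34 ≤ M → m12 + m13 + m23 ≤ 2 * M → m12 + m14 + m24 ≤ 2 * M → m13 + m14 + m34 ≤ 2 * M →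
    m23 + m24 + m34 ≤ 2 * M →
    4 * (q1 * q2 * m12 + q1 * q3 * m13 + q1 * q4 * m14 + q2 * q3 * m23 + q2 * q4 * m24
      + q3 * q4 * m34) ≤ M

private theorem R3_sw12 {a b c d : ℝ} (h : R3P b a c d) : R3P a b c d := by
  intro m12 m13 m14 m23 m24 m34 M hM a12 a13 a14 a23 a24 a34 t1 t2 t3 t4
  have := h m12 m23 m24 m13 m14 m34 M hM a12 a23 a24 a13 a14 a34 (by linarith) (by linarith)
    (by linarith) (by linarith)
  linarith

private theorem R3_sw23 {a b c d : ℝ} (h : R3P a c b d) : R3P a b c d := by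
  intro m12 m13 m14 m23 m24 m34 M hM a12 a13 a14 a23 a24 a34 t1 t2 t3 t4
  have := h m13 m12 m14 m23 m34 m24 M hM a13 a12 a14 a23 a34 a24 (by linarith) (by linarith)
    (by linarith) (by linarith)
  linarith

private theorem R3_sw34 {a b c d : ℝ} (h : R3P a b d c) : R3P a b c d := by
  intro m12 m13 m14 m23 m24 m34 M hM a12 a13 a14 a23 a24 a34 t1 t2 t3 t4
  have := h m12 m14 m13 m24 m23 m34 M hM a12 a14 a13 a24 a23 a34 (by linarith) (by linarith)
    (by linarith) (by linarith)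
  linarith

private theorem R3_sorted {q1 q2 q3 q4 : ℝ} (h4 : 0 ≤ q4) (h34 : q4 ≤ q3) (h23 : q3 ≤ q2)
    (h12 : q2 ≤ q1) (hq : q1 + q2 + q3 + q4 = 1) : R3P q1 q2 q3 q4 := by
  intro m12 m13 m14 m23 m24 m34 M hM a12 a13 a14 a23 a24 a34 t1 t2 t3 t4
  have h3 : 0 ≤ q3 := h4.trans h34
  have h2 : 0 ≤ q2 := h3.trans h23
  have h1 : 0 ≤ q1 := h2.trans h12
  rcases le_total (q2 + q3) q1 with hA | hA
  · -- case A
    have c12 := mul_le_mul_of_nonneg_left a12 (mul_nonneg h2 (by linarith : 0 ≤ q1 - q3 - q4))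
    have c13 := mul_le_mul_of_nonneg_left a13 (mul_nonneg h3 (by linarith : 0 ≤ q1 - q2 - q4))
    have c14 := mul_le_mul_of_nonneg_left a14 (mul_nonneg h4 (by linarith : 0 ≤ q1 - q2 - q3))
    have d1 := mul_le_mul_of_nonneg_left t1 (mul_nonneg h2 h3)
    have d2 := mul_le_mul_of_nonneg_left t2 (mul_nonneg h2 h4)
    have d3 := mul_le_mul_of_nonneg_left t3 (mul_nonneg h3 h4)
    have hf : 0 ≤ M * (1 - 2 * q1) ^ 2 := mul_nonneg hM (sq_nonneg _)
    have e : M * (1 - 2 * q1) ^ 2 = M - 4 * (M * q1 * (q2 + q3 + q4)) := by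
      have : q2 + q3 + q4 = 1 - q1 := by linarith
      rw [this]
      ring
    rw [e] at hf
    linarith
  · -- case B
    have r124 : 0 ≤ q4 * (q1 + q2 - q3) / 2 :=
      div_nonneg (mul_nonneg h4 (by linarith)) (by norm_num)
    have r134 : 0 ≤ q4 * (q1 - q2 + q3) / 2 :=
      div_nonneg (mul_nonneg h4 (by linarith)) (by norm_num)
    have r234 : 0 ≤ q4 * (q2 + q3 - q1) / 2 :=
      div_nonneg (mul_nonneg h4 (by linarith)) (by norm_num)
    have r123 : 0 ≤ q2 * q3 - q4 * (q2 + q3 - q1) / 2 := by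
      have k1 : q4 * (q2 + q3 - q1) ≤ q4 * q3 := mul_le_mul_of_nonneg_left (by linarith) h4
      have k2 : q4 * q3 ≤ q2 * q3 := mul_le_mul_of_nonneg_right (by linarith) h3
      have k3 : 0 ≤ q2 * q3 := mul_nonneg h2 h3
      linarith
    have c12 := mul_le_mul_of_nonneg_left a12
      (mul_nonneg (by linarith : 0 ≤ q1 - q3) (by linarith : 0 ≤ q2 - q4))
    have c13 := mul_le_mul_of_nonneg_left a13
      (mul_nonneg (by linarith : 0 ≤ q1 - q2) (by linarith : 0 ≤ q3 - q4))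
    have d1 := mul_le_mul_of_nonneg_left t1 r123
    have d2 := mul_le_mul_of_nonneg_left t2 r124
    have d3 := mul_le_mul_of_nonneg_left t3 r134
    have d4 := mul_le_mul_of_nonneg_left t4 r234
    have hf : 0 ≤ M * (1 - 2 * (q1 + q4)) ^ 2 := mul_nonneg hM (sq_nonneg _)
    have e : M * (1 - 2 * (q1 + q4)) ^ 2 = M - 4 * (M * (q1 + q4) * (q2 + q3)) := by
      have : q2 + q3 = 1 - (q1 + q4) := by linarith
      rw [this]
      ring
    rw [e] at hf
    linarith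

private theorem R3_ins1 {a b c d : ℝ} (ha : 0 ≤ a) (hd : 0 ≤ d) (hdc : d ≤ c) (hcb : c ≤ b)
    (hq : a + b + c + d = 1) : R3P a b c d := by
  rcases le_total b a with h | h
  · exact R3_sorted hd hdc hcb h hq
  · apply R3_sw12
    rcases le_total c a with h' | h'
    · exact R3_sorted hd hdc h' h (by linarith)
    · apply R3_sw23
      rcases le_total d a with h'' | h''
      · exact R3_sorted hd h'' h' hcb (by linarith)
      · apply R3_sw34
        exact R3_sorted ha h'' hdc hcb (by linarith)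

private theorem R3_ins2 {a b c d : ℝ} (ha : 0 ≤ a) (hb : 0 ≤ b) (hd : 0 ≤ d) (hdc : d ≤ c)
    (hq : a + b + c + d = 1) : R3P a b c d := by
  rcases le_total c b with h | h
  · exact R3_ins1 ha hd hdc h hq
  · apply R3_sw23
    rcases le_total d b with h' | h'
    · exact R3_ins1 ha hd h' h (by linarith)
    · apply R3_sw34
      exact R3_ins1 ha hb h' hdc (by linarith)

theorem rf_four (q1 q2 q3 q4 m12 m13 m14 m23 m24 m34 M : ℝ) (h1 : 0 ≤ q1) (h2 : 0 ≤ q2)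
    (h3 : 0 ≤ q3) (h4 : 0 ≤ q4) (hq : q1 + q2 + q3 + q4 = 1) (hM : 0 ≤ M)
    (a12 : m12 ≤ M) (a13 : m13 ≤ M) (a14 : m14 ≤ M) (a23 : m23 ≤ M) (a24 : m24 ≤ M)
    (a34 : m34 ≤ M) (t123 : m12 + m13 + m23 ≤ 2 * M) (t124 : m12 + m14 + m24 ≤ 2 * M)
    (t134 : m13 + m14 + m34 ≤ 2 * M) (t234 : m23 + m24 + m34 ≤ 2 * M) :
    4 * (q1 * q2 * m12 + q1 * q3 * m13 + q1 * q4 * m14 + q2 * q3 * m23 + q2 * q4 * m24
      + q3 * q4 * m34) ≤ M := by
  have h : R3P q1 q2 q3 q4 := by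
    rcases le_total q4 q3 with h | h
    · exact R3_ins2 h1 h2 h4 h hq
    · exact R3_sw34 (R3_ins2 h1 h2 h3 h (by linarith))
  exact h m12 m13 m14 m23 m24 m34 M hM a12 a13 a14 a23 a24 a34 t123 t124 t134 t234

end Pool.Agent.Helper2.RF
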