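import Mathlib

/-!
RF/R4: reduction to at most four points.

Proof.  Among all `q'` in the simplex with `F q' ≥ F q`, `F q = ∑ ∑ q i q j m i j`, take one with the
smallest support.  If the support has five or more points there is `v ≠ 0` supported there with
`∑ v = 0` and `∑ L k i * v i = 0`, `k = 0, 1, 2` (four linear equations), so
`F (q' + t v) = F q' + 2 t m(q', v) + t^2 m(v, v)` with `m(v,v) ≥ 0`; choose the sign of `v` with
`m(q', v) ≥ 0` and let `t ≥ 0` grow until a coordinate of `q' + t v` becomes `0`: smaller support.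
-/

set_option autoImplicit false

namespace Pool.Agent.Helper2.RF

/-- a vector with four linear conditions and smaller support -/
private theorem R4_vec {ι : Type*} [Fintype ι] [DecidableEq ι] (L : Fin 3 → ι → ℝ) (q : ι → ℝ)
    (hcard : 4 < (Finset.univ.filter fun i => q i ≠ 0).card) :
    ∃ v : ι → ℝ, v ≠ 0 ∧ ∑ i, v i = 0 ∧ (∀ k, ∑ i, L k i * v i = 0) ∧
      ∀ i, q i = 0 → v i = 0 := by
  classical
  let M : Matrix (Option (Fin 3) ⊕ {i // q i = 0}) ι ℝ := fun o i =>
    Sum.elim (fun o : Option (Fin 3) => (o.elim 1 (fun k => L k i) : ℝ))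
      (fun j : {i // q i = 0} => if j.1 = i then 1 else 0) o
  have hlt : Module.finrank ℝ ((Option (Fin 3) ⊕ {i // q i = 0}) → ℝ) <
      Module.finrank ℝ (ι → ℝ) := by
    rw [Module.finrank_fintype_fun_eq_card, Module.finrank_fintype_fun_eq_card,
      Fintype.card_sum, Fintype.card_option, Fintype.card_fin, Fintype.card_subtype]
    have h1 := Finset.card_filter_add_card_filter_not (s := (Finset.univ : Finset ι))
      (fun i => q i = 0)
    rw [Finset.card_univ] at h1
    have h2 : (Finset.univ.filter fun i => ¬ q i = 0).card =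
      (Finset.univ.filter fun i => q i ≠ 0).card := rfl
    omega
  have hne : LinearMap.ker (Matrix.mulVecLin M) ≠ ⊥ :=
    LinearMap.ker_ne_bot_of_finrank_lt hlt
  obtain ⟨v, hv, hv0⟩ := Submodule.exists_mem_ne_zero_of_ne_bot hne
  rw [LinearMap.mem_ker, Matrix.mulVecLin_apply] at hv
  refine ⟨v, hv0, ?_, ?_, ?_⟩
  · have h1 := congrFun hv (Sum.inl none)
    have h2 : ∑ i, (1 : ℝ) * v i = 0 := h1
    simpa using h2
  · intro k
    exact congrFun hv (Sum.inl (some k))
  · intro i hi
    have h1 := congrFun hv (Sum.inr ⟨i, hi⟩)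
    have h2 : ∑ j, (if i = j then (1 : ℝ) else 0) * v j = 0 := h1
    simpa using h2

/-- the step -/
private theorem R4_step {ι : Type*} [Fintype ι] [DecidableEq ι] (m : ι → ι → ℝ)
    (hsym : ∀ i j, m i j = m j i) (q v : ι → ℝ) (hq : ∀ i, 0 ≤ q i) (h1 : ∑ i, q i = 1)
    (hv0 : v ≠ 0) (hvs : ∑ i, v i = 0) (hvq : ∀ i, q i = 0 → v i = 0)
    (hvv : 0 ≤ ∑ i, ∑ j, v i * v j * m i j) (hqv : 0 ≤ ∑ i, ∑ j, q i * v j * m i j) :
    ∃ p : ι → ℝ, (∀ i, 0 ≤ p i) ∧ ∑ i, p i = 1 ∧
      (Finset.univ.filter fun i => p i ≠ 0).card < (Finset.univ.filter fun i => q i ≠ 0).card ∧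
      ∑ i, ∑ j, q i * q j * m i j ≤ ∑ i, ∑ j, p i * p j * m i j := by
  classical
  have hne : (Finset.univ.filter fun i => v i < 0).Nonempty := by
    by_contra hcon
    rw [Finset.not_nonempty_iff_eq_empty, Finset.filter_eq_empty_iff] at hcon
    have h2 : ∀ i, 0 ≤ v i := fun i => not_lt.1 (hcon (Finset.mem_univ i))
    have h3 := (Finset.sum_eq_zero_iff_of_nonneg fun i _ => h2 i).1 hvs
    apply hv0
    funext i
    exact h3 i (Finset.mem_univ i)
  obtain ⟨i0, hi0, hmin⟩ := Finset.exists_min_image _ (fun i => q i / (-v i)) hne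
  rw [Finset.mem_filter] at hi0
  have hvi0 := hi0.2
  obtain ⟨t, ht⟩ : ∃ t : ℝ, t = q i0 / (-v i0) := ⟨_, rfl⟩
  have ht0 : 0 ≤ t := by
    rw [ht]
    exact div_nonneg (hq i0) (by linarith)
  have hp0 : ∀ i, 0 ≤ q i + t * v i := by
    intro i
    rcases lt_or_ge (v i) 0 with h2 | h2
    · have h3 := hmin i (Finset.mem_filter.2 ⟨Finset.mem_univ i, h2⟩)
      rw [← ht, le_div_iff₀ (by linarith)] at h3
      linarith
    · have := mul_nonneg ht0 h2
      linarith [hq i]
  have hpi0 : q i0 + t * v i0 = 0 := by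
    have h2 : -v i0 ≠ 0 := by linarith
    have h3 : t * (-v i0) = q i0 := by
      rw [ht]
      exact div_mul_cancel₀ _ h2
    linarith
  refine ⟨fun i => q i + t * v i, hp0, ?_, ?_, ?_⟩
  · rw [Finset.sum_add_distrib, ← Finset.mul_sum, hvs, mul_zero, add_zero, h1]
  · refine Finset.card_lt_card ?_
    rw [Finset.ssubset_iff_of_subset]
    · refine ⟨i0, ?_, ?_⟩
      · rw [Finset.mem_filter]
        refine ⟨Finset.mem_univ i0, fun h2 => ?_⟩
        rw [hvq i0 h2] at hvi0
        exact absurd hvi0 (lt_irrefl 0)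
      · rw [Finset.mem_filter]
        exact fun h2 => h2.2 hpi0
    · intro i hi
      rw [Finset.mem_filter] at hi ⊢
      refine ⟨Finset.mem_univ i, fun h2 => hi.2 ?_⟩
      show q i + t * v i = 0
      rw [h2, hvq i h2]
      ring
  · have hexp : ∑ i, ∑ j, (q i + t * v i) * (q j + t * v j) * m i j =
        ∑ i, ∑ j, q i * q j * m i j + t * (∑ i, ∑ j, q i * v j * m i j) +
          t * (∑ i, ∑ j, v i * q j * m i j) + t ^ 2 * (∑ i, ∑ j, v i * v j * m i j) := by
      simp only [Finset.mul_sum]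
      rw [← Finset.sum_add_distrib, ← Finset.sum_add_distrib, ← Finset.sum_add_distrib]
      refine Finset.sum_congr rfl fun i _ => ?_
      rw [← Finset.sum_add_distrib, ← Finset.sum_add_distrib, ← Finset.sum_add_distrib]
      refine Finset.sum_congr rfl fun j _ => ?_
      ring
    have hcomm : ∑ i, ∑ j, v i * q j * m i j = ∑ i, ∑ j, q i * v j * m i j := by
      rw [Finset.sum_comm]
      refine Finset.sum_congr rfl fun i _ => ?_
      refine Finset.sum_congr rfl fun j _ => ?_
      rw [hsym j i]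
      ring
    show ∑ i, ∑ j, q i * q j * m i j ≤ ∑ i, ∑ j, (q i + t * v i) * (q j + t * v j) * m i j
    rw [hexp, hcomm]
    have h2 := mul_nonneg ht0 hqv
    have h3 := mul_nonneg (sq_nonneg t) hvv
    linarith

theorem rf_red {ι : Type*} [Fintype ι] [DecidableEq ι] (m : ι → ι → ℝ)
    (hsym : ∀ i j, m i j = m j i) (L : Fin 3 → ι → ℝ)
    (hL : ∀ v : ι → ℝ, ∑ i, v i = 0 → (∀ k, ∑ i, L k i * v i = 0) →
      0 ≤ ∑ i, ∑ j, v i * v j * m i j)
    (q : ι → ℝ) (hq : ∀ i, 0 ≤ q i) (h1 : ∑ i, q i = 1) :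
    ∃ p : ι → ℝ, (∀ i, 0 ≤ p i) ∧ ∑ i, p i = 1 ∧
      (Finset.univ.filter fun i => p i ≠ 0).card ≤ 4 ∧
      ∑ i, ∑ j, q i * q j * m i j ≤ ∑ i, ∑ j, p i * p j * m i j := by
  classical
  have key : ∀ (N : ℕ) (q : ι → ℝ), (∀ i, 0 ≤ q i) → ∑ i, q i = 1 →
      (Finset.univ.filter fun i => q i ≠ 0).card = N →
      ∃ p : ι → ℝ, (∀ i, 0 ≤ p i) ∧ ∑ i, p i = 1 ∧
        (Finset.univ.filter fun i => p i ≠ 0).card ≤ 4 ∧
        ∑ i, ∑ j, q i * q j * m i j ≤ ∑ i, ∑ j, p i * p j * m i j := by
    intro N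
    induction N using Nat.strong_induction_on with
    | _ N ih =>
      intro q hq h1 hN
      by_cases hN4 : N ≤ 4
      · exact ⟨q, hq, h1, by rw [hN]; exact hN4, le_refl _⟩
      · obtain ⟨v, hv0, hvs, hvL, hvq⟩ := R4_vec L q (by rw [hN]; omega)
        have hvv := hL v hvs hvL
        have hstep : ∃ p : ι → ℝ, (∀ i, 0 ≤ p i) ∧ ∑ i, p i = 1 ∧
            (Finset.univ.filter fun i => p i ≠ 0).card <
              (Finset.univ.filter fun i => q i ≠ 0).card ∧
            ∑ i, ∑ j, q i * q j * m i j ≤ ∑ i, ∑ j, p i * p j * m i j := by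
          rcases le_total 0 (∑ i, ∑ j, q i * v j * m i j) with hqv | hqv
          · exact R4_step m hsym q v hq h1 hv0 hvs hvq hvv hqv
          · refine R4_step m hsym q (fun i => -v i) hq h1 ?_ ?_ ?_ ?_ ?_
            · intro h2
              apply hv0
              funext i
              have h3 := congrFun h2 i
              simp only [Pi.zero_apply] at h3 ⊢
              linarith
            · rw [Finset.sum_neg_distrib, hvs, neg_zero]
            · intro i hi
              rw [hvq i hi, neg_zero]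
            · have h2 : ∑ i, ∑ j, -v i * -v j * m i j = ∑ i, ∑ j, v i * v j * m i j := by
                refine Finset.sum_congr rfl fun i _ => Finset.sum_congr rfl fun j _ => ?_
                ring
              rw [h2]
              exact hvv
            · have h2 : ∑ i, ∑ j, q i * -v j * m i j = -∑ i, ∑ j, q i * v j * m i j := by
                rw [← Finset.sum_neg_distrib]
                refine Finset.sum_congr rfl fun i _ => ?_
                rw [← Finset.sum_neg_distrib]
                refine Finset.sum_congr rfl fun j _ => ?_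
                ring
              rw [h2]
              linarith
        obtain ⟨p, hp0, hp1, hpc, hpF⟩ := hstep
        rw [hN] at hpc
        obtain ⟨p', hp0', hp1', hpc', hpF'⟩ := ih _ hpc p hp0 hp1 rfl
        exact ⟨p', hp0', hp1', hpc', hpF.trans hpF'⟩
  exact key _ q hq h1 rfl

end Pool.Agent.Helper2.RF
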