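import Pool.Agent.Helper2.RF.Defs

/-!
RF/R5: the form `(lam * tt a b i j).re` has at most three negative squares on `∑ v = 0`.

Proof.  With `s i = a i + b i`: for `∑ v = 0`, `∑ ∑ v i v j tt i j = 2 (P Q + N^2)`, `P = ∑ v a b / s`,
`Q = ∑ v / s`, `N = ∑ v a / s` (`b / s = 1 - a / s`).  `P Q = ((P+Q)/2)^2 - ((P-Q)/2)^2`; `mu^2 = lam`;
`L 0 = Im (mu (ab/s + 1/s))`, `L 1 = Re (mu (ab/s - 1/s))`, `L 2 = Im (mu a/s)`: if these vanish on `v`,
the real part of `2 lam (P Q + N^2)` is `≥ 0`.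
-/

set_option autoImplicit false

namespace Pool.Agent.Helper2.RF

open Complex

variable {n : Type*} [Fintype n] [DecidableEq n]

private theorem R5_sum (a b : n → ℂ) (hs : ∀ i, a i + b i ≠ 0) (v : n → ℂ) (hv : ∑ i, v i = 0) :
    ∑ i, ∑ j, v i * v j * tt a b i j =
      2 * ((∑ i, v i * (a i * b i / (a i + b i))) * (∑ i, v i * (1 / (a i + b i))) +
        (∑ i, v i * (a i / (a i + b i))) ^ 2) := by
  have h1 : ∀ i j, v i * v j * tt a b i j =
      (v i * (a i * b i / (a i + b i))) * (v j * (1 / (a j + b j))) +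
      (v i * (1 / (a i + b i))) * (v j * (a j * b j / (a j + b j))) -
      (v i * (a i / (a i + b i))) * v j - v i * (v j * (a j / (a j + b j))) +
      2 * ((v i * (a i / (a i + b i))) * (v j * (a j / (a j + b j)))) := by
    intro i j
    have hi := hs i
    have hj := hs j
    unfold tt
    field_simp
    ring
  simp only [h1, Finset.sum_add_distrib, Finset.sum_sub_distrib, ← Finset.mul_sum,
    ← Finset.sum_mul, hv]
  ring

private theorem R5_real (a b : n → ℂ) (v : n → ℝ) (lam : ℂ) :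
    ∑ i, ∑ j, v i * v j * (lam * tt a b i j).re =
      (lam * ∑ i, ∑ j, (v i : ℂ) * (v j : ℂ) * tt a b i j).re := by
  rw [Finset.mul_sum, Complex.re_sum]
  refine Finset.sum_congr rfl fun i _ => ?_
  rw [Finset.mul_sum, Complex.re_sum]
  refine Finset.sum_congr rfl fun j _ => ?_
  have h : lam * ((v i : ℂ) * (v j : ℂ) * tt a b i j) =
      ((v i * v j : ℝ) : ℂ) * (lam * tt a b i j) := by
    push_cast
    ring
  rw [h, Complex.re_ofReal_mul]

theorem rf_form (a b : n → ℂ) (hs : ∀ i, a i + b i ≠ 0) (lam : ℂ) :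
    ∃ L : Fin 3 → n → ℝ, ∀ v : n → ℝ, ∑ i, v i = 0 → (∀ k, ∑ i, L k i * v i = 0) →
      0 ≤ ∑ i, ∑ j, v i * v j * (lam * tt a b i j).re := by
  obtain ⟨μ, hμ⟩ : ∃ μ : ℂ, μ ^ 2 = lam := IsAlgClosed.exists_pow_nat_eq lam (by norm_num)
  refine ⟨fun k i => (![(μ * (a i * b i / (a i + b i) + 1 / (a i + b i))).im,
    (μ * (a i * b i / (a i + b i) - 1 / (a i + b i))).re,
    (μ * (a i / (a i + b i))).im] : Fin 3 → ℝ) k, ?_⟩
  intro v hv hL
  have hv' : ∑ i, ((v i : ℝ) : ℂ) = 0 := by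
    rw [← Complex.ofReal_sum, hv, Complex.ofReal_zero]
  rw [R5_real, R5_sum a b hs (fun i => (v i : ℂ)) hv']
  obtain ⟨P, hP⟩ : ∃ P, P = ∑ i, (v i : ℂ) * (a i * b i / (a i + b i)) := ⟨_, rfl⟩
  obtain ⟨Q, hQ⟩ : ∃ Q, Q = ∑ i, (v i : ℂ) * (1 / (a i + b i)) := ⟨_, rfl⟩
  obtain ⟨N, hN⟩ : ∃ N, N = ∑ i, (v i : ℂ) * (a i / (a i + b i)) := ⟨_, rfl⟩
  rw [← hP, ← hQ, ← hN]
  have e0 : (μ * (P + Q)).im = 0 := by
    have h := hL 0
    simp only [Matrix.cons_val_zero] at h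
    rw [← h, hP, hQ, ← Finset.sum_add_distrib, Finset.mul_sum, Complex.im_sum]
    refine Finset.sum_congr rfl fun i _ => ?_
    have h2 : μ * ((v i : ℂ) * (a i * b i / (a i + b i)) + (v i : ℂ) * (1 / (a i + b i))) =
        (v i : ℂ) * (μ * (a i * b i / (a i + b i) + 1 / (a i + b i))) := by ring
    rw [h2, Complex.im_ofReal_mul]
    ring
  have e1 : (μ * (P - Q)).re = 0 := by
    have h := hL 1
    simp only [Matrix.cons_val_one, Matrix.cons_val_zero] at h
    rw [← h, hP, hQ, ← Finset.sum_sub_distrib, Finset.mul_sum, Complex.re_sum]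
    refine Finset.sum_congr rfl fun i _ => ?_
    have h2 : μ * ((v i : ℂ) * (a i * b i / (a i + b i)) - (v i : ℂ) * (1 / (a i + b i))) =
        (v i : ℂ) * (μ * (a i * b i / (a i + b i) - 1 / (a i + b i))) := by ring
    rw [h2, Complex.re_ofReal_mul]
    ring
  have e2 : (μ * N).im = 0 := by
    have h := hL 2
    simp only [Matrix.cons_val] at h
    rw [← h, hN, Finset.mul_sum, Complex.im_sum]
    refine Finset.sum_congr rfl fun i _ => ?_
    have h2 : μ * ((v i : ℂ) * (a i / (a i + b i))) = (v i : ℂ) * (μ * (a i / (a i + b i))) := by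
      ring
    rw [h2, Complex.im_ofReal_mul]
    ring
  have e3 : lam * (2 * (P * Q + N ^ 2)) =
      ((μ * (P + Q)) ^ 2 - (μ * (P - Q)) ^ 2) / 2 + 2 * (μ * N) ^ 2 := by
    rw [← hμ]
    ring
  have e4 : (lam * (2 * (P * Q + N ^ 2))).re =
      ((μ * (P + Q)).re ^ 2 + (μ * (P - Q)).im ^ 2) / 2 + 2 * (μ * N).re ^ 2 := by
    rw [e3]
    generalize μ * (P + Q) = x at e0
    generalize μ * (P - Q) = y at e1
    generalize μ * N = z at e2
    have h1 : (((x ^ 2 - y ^ 2) / 2 + 2 * z ^ 2 : ℂ)).re =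
        ((x.re ^ 2 - x.im ^ 2) - (y.re ^ 2 - y.im ^ 2)) / 2 + 2 * (z.re ^ 2 - z.im ^ 2) := by
      have h2 : ∀ w : ℂ, (w ^ 2).re = w.re ^ 2 - w.im ^ 2 := by
        intro w
        rw [sq, Complex.mul_re]
        ring
      have h3 : ((x ^ 2 - y ^ 2) / 2 + 2 * z ^ 2 : ℂ) =
          ((1 / 2 : ℝ) : ℂ) * (x ^ 2 - y ^ 2) + ((2 : ℝ) : ℂ) * z ^ 2 := by
        push_cast
        ring
      rw [h3, Complex.add_re, Complex.re_ofReal_mul, Complex.re_ofReal_mul, Complex.sub_re, h2, h2,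
        h2]
      ring
    rw [h1, e0, e1, e2]
    ring
  rw [e4]
  positivity

end Pool.Agent.Helper2.RF
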