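import Pool.Agent.Helper2.RF.R1
import Pool.Agent.Helper2.RF.R2
import Pool.Agent.Helper2.RF.R3
import Pool.Agent.Helper2.RF.R4
import Pool.Agent.Helper2.RF.R5

/-!
RF/R6: assembly.
-/

set_option autoImplicit false

namespace Pool.Agent.Helper2.RF

open Matrix Complex Equiv Filter Topology

/-- the inequality for weights with at most four points -/
theorem rf_small {ι : Type*} [Fintype ι] [DecidableEq ι] (m : ι → ι → ℝ)
    (hsym : ∀ i j, m i j = m j i) (hd : ∀ i, m i i = 0) (M : ℝ) (hM : 0 ≤ M)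
    (h2 : ∀ i j, i ≠ j → m i j ≤ M)
    (h3 : ∀ i j k, i ≠ j → i ≠ k → j ≠ k → m i j + m j k + m i k ≤ 2 * M)
    (p : ι → ℝ) (hp : ∀ i, 0 ≤ p i) (h1 : ∑ i, p i = 1)
    (hc : (Finset.univ.filter fun i => p i ≠ 0).card ≤ 4) :
    2 * ∑ i, ∑ j, p i * p j * m i j ≤ M := by
  obtain ⟨K, hK⟩ : ∃ K, K = Finset.univ.filter fun i => p i ≠ 0 := ⟨_, rfl⟩
  have hz : ∀ i, i ∉ K → p i = 0 := by
    intro i hi
    by_contra h
    exact hi (by rw [hK]; simp [h])
  have hs : ∀ f : ι → ℝ, (∀ i, i ∉ K → f i = 0) → ∑ i, f i = ∑ i ∈ K, f i := by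
    intro f hf
    exact (Finset.sum_subset (Finset.subset_univ K) fun i _ hi => hf i hi).symm
  have e1 : ∑ i ∈ K, p i = 1 := by rw [← hs p hz, h1]
  have e2 : ∑ i, ∑ j, p i * p j * m i j = ∑ i ∈ K, ∑ j ∈ K, p i * p j * m i j := by
    rw [hs _ (fun i hi => by simp [hz i hi])]
    refine Finset.sum_congr rfl fun i _ => ?_
    exact hs _ (fun j hj => by simp [hz j hj])
  rw [e2]
  rw [← hK] at hc
  have hcase : K.card = 0 ∨ K.card = 1 ∨ K.card = 2 ∨ K.card = 3 ∨ K.card = 4 := by omega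
  rcases hcase with h | h | h | h | h
  · rw [Finset.card_eq_zero.1 h] at e1
    simp at e1
  · obtain ⟨x, hx⟩ := Finset.card_eq_one.1 h
    rw [hx]
    simp [hd, hM]
  · obtain ⟨x, y, hxy, hx⟩ := Finset.card_eq_two.1 h
    rw [hx] at e1 ⊢
    rw [Finset.sum_pair hxy] at e1
    rw [Finset.sum_pair hxy, Finset.sum_pair hxy, Finset.sum_pair hxy, hd, hd, hsym y x]
    have := rf_four (p x) (p y) 0 0 (m x y) 0 0 0 0 0 M (hp x) (hp y) le_rfl le_rfl
      (by linarith) hM (h2 x y hxy) hM hM hM hM hM (by linarith [h2 x y hxy])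
      (by linarith [h2 x y hxy]) (by linarith) (by linarith)
    linarith
  · obtain ⟨x, y, z, hxy, hxz, hyz, hx⟩ := Finset.card_eq_three.1 h
    have hsum : ∀ f : ι → ℝ, ∑ i ∈ K, f i = f x + f y + f z := by
      intro f
      rw [hx, Finset.sum_insert (by simp [hxy, hxz]), Finset.sum_pair hyz]
      ring
    rw [hsum] at e1
    simp only [hsum]
    rw [hd, hd, hd, hsym y x, hsym z x, hsym z y]
    have := rf_four (p x) (p y) (p z) 0 (m x y) (m x z) 0 (m y z) 0 0 M (hp x) (hp y) (hp z)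
      le_rfl (by linarith) hM (h2 x y hxy) (h2 x z hxz) hM (h2 y z hyz) hM hM
      (by linarith [h3 x y z hxy hxz hyz]) (by linarith [h2 x y hxy])
      (by linarith [h2 x z hxz]) (by linarith [h2 y z hyz])
    linarith
  · obtain ⟨u, K', hu, hK', hc'⟩ := Finset.card_eq_succ.1 h
    obtain ⟨x, y, z, hxy, hxz, hyz, hx⟩ := Finset.card_eq_three.1 hc'
    have hsum : ∀ f : ι → ℝ, ∑ i ∈ K, f i = f u + (f x + f y + f z) := by
      intro f
      rw [← hK', Finset.sum_insert hu, hx, Finset.sum_insert (by simp [hxy, hxz]),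
        Finset.sum_pair hyz]
      ring
    have hux : u ≠ x := fun e => hu (by rw [hx, e]; simp)
    have huy : u ≠ y := fun e => hu (by rw [hx, e]; simp)
    have huz : u ≠ z := fun e => hu (by rw [hx, e]; simp)
    rw [hsum] at e1
    simp only [hsum]
    rw [hd, hd, hd, hd, hsym y x, hsym z x, hsym z y, hsym x u, hsym y u, hsym z u]
    have := rf_four (p u) (p x) (p y) (p z) (m u x) (m u y) (m u z) (m x y) (m x z) (m y z) M
      (hp u) (hp x) (hp y) (hp z) (by linarith) hM (h2 u x hux) (h2 u y huy) (h2 u z huz)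
      (h2 x y hxy) (h2 x z hxz) (h2 y z hyz)
      (by linarith [h3 u x y hux huy hxy]) (by linarith [h3 u x z hux huz hxz])
      (by linarith [h3 u y z huy huz hyz]) (by linarith [h3 x y z hxy hxz hyz])
    linarith

variable {n : Type*} [Fintype n] [DecidableEq n]

omit [Fintype n] [DecidableEq n] in
theorem tt_symm (a b : n → ℂ) (i j : n) : tt a b i j = tt a b j i := by
  unfold tt
  rw [mul_comm (a i + b i)]
  congr 1
  ring

omit [Fintype n] [DecidableEq n] in
theorem tt_self (a b : n → ℂ) (i : n) : tt a b i i = 0 := by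
  unfold tt
  simp

theorem normSq_le_four (ζ : ℂ) (hζ : normSq ζ = 1) : normSq (1 - ζ) ≤ 4 := by
  rw [normSq_apply] at *
  simp only [Complex.sub_re, Complex.sub_im, Complex.one_re, Complex.one_im]
  nlinarith [sq_nonneg (ζ.re + 1), sq_nonneg ζ.im]

theorem rf_half1 (a b w : n → ℂ) (ζ : ℂ) (hζ : normSq ζ = 1) (hw : ∑ i, normSq (w i) = 1)
    (hs : ∀ i, a i + b i ≠ 0) (ω : ℂ) :
    ∃ σ : Perm n, (ω * (diagonal a + Rf w ζ * diagonal b * star (Rf w ζ)).det).re
      ≤ (ω * zz a b σ).re := by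
  obtain ⟨σ0, hσ⟩ := Finite.exists_max fun σ : Perm n => (ω * zz a b σ).re
  refine ⟨σ0, ?_⟩
  obtain ⟨M, hMd⟩ : ∃ M, M = (ω * zz a b σ0).re - (ω * zz a b 1).re := ⟨_, rfl⟩
  have hM : 0 ≤ M := by rw [hMd]; linarith [hσ 1]
  have hm : ∀ i j, ((ω * zz a b 1) * tt a b i j).re
      = (ω * zz a b (swap i j)).re - (ω * zz a b 1).re := by
    intro i j
    rw [mul_assoc, ← rf_swap a b hs i j, mul_sub, Complex.sub_re]
  have hF : ∀ σ : Perm n, (ω * zz a b σ).re - (ω * zz a b 1).re ≤ M := by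
    intro σ
    rw [hMd]
    linarith [hσ σ]
  obtain ⟨L, hL⟩ := rf_form a b hs (ω * zz a b 1)
  obtain ⟨p, p0, p1, p2, p3⟩ := rf_red (fun i j => ((ω * zz a b 1) * tt a b i j).re)
    (fun i j => by simp only [tt_symm a b i j]) L hL (fun i => normSq (w i))
    (fun i => normSq_nonneg _) hw
  have h4 := rf_small (fun i j => ((ω * zz a b 1) * tt a b i j).re)
    (fun i j => by simp only [tt_symm a b i j]) (fun i => by simp [tt_self]) M hM
    (fun i j _ => by rw [hm]; exact hF _)
    (fun i j k hij hik hjk => by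
      rw [hm, hm, hm]
      have h5 := congrArg (fun x => (ω * x).re) (rf_tri a b i j k hij hik hjk)
      simp only [mul_add, Complex.add_re] at h5
      linarith [hF (swap i j * swap j k), hF (swap j k * swap i j)]) p p0 p1 p2
  rw [rf_det a b w ζ hζ hw hs]
  have h6 : (ω * (zz a b 1 * (1 + (normSq (1 - ζ) : ℂ) / 2
          * ∑ i, ∑ j, (normSq (w i) : ℂ) * (normSq (w j) : ℂ) * tt a b i j))).re
      = (ω * zz a b 1).re + normSq (1 - ζ) / 2
          * ∑ i, ∑ j, normSq (w i) * normSq (w j) * ((ω * zz a b 1) * tt a b i j).re := by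
    have e : ω * (zz a b 1 * (1 + (normSq (1 - ζ) : ℂ) / 2
          * ∑ i, ∑ j, (normSq (w i) : ℂ) * (normSq (w j) : ℂ) * tt a b i j))
        = ω * zz a b 1 + ((normSq (1 - ζ) / 2 : ℝ) : ℂ)
          * ∑ i, ∑ j, ((normSq (w i) * normSq (w j) : ℝ) : ℂ) * ((ω * zz a b 1) * tt a b i j) := by
      have e3 : ∑ i, ∑ j, ((normSq (w i) * normSq (w j) : ℝ) : ℂ)
            * ((ω * zz a b 1) * tt a b i j)
          = (ω * zz a b 1)
            * ∑ i, ∑ j, (normSq (w i) : ℂ) * (normSq (w j) : ℂ) * tt a b i j := by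
        rw [Finset.mul_sum]
        refine Finset.sum_congr rfl fun i _ => ?_
        rw [Finset.mul_sum]
        refine Finset.sum_congr rfl fun j _ => ?_
        push_cast
        ring
      rw [e3]
      push_cast
      ring
    rw [e, Complex.add_re, Complex.re_ofReal_mul, Complex.re_sum]
    congr 2
    refine Finset.sum_congr rfl fun i _ => ?_
    rw [Complex.re_sum]
    refine Finset.sum_congr rfl fun j _ => ?_
    rw [Complex.re_ofReal_mul]
  rw [h6]
  have h7 := normSq_le_four ζ hζ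
  have h8 := normSq_nonneg (1 - ζ)
  have h9 : ∑ i, ∑ j, normSq (w i) * normSq (w j) * ((ω * zz a b 1) * tt a b i j).re ≤ M / 2 := by
    linarith
  have h10 : normSq (1 - ζ) / 2
      * ∑ i, ∑ j, normSq (w i) * normSq (w j) * ((ω * zz a b 1) * tt a b i j).re ≤ M := by
    calc _ ≤ normSq (1 - ζ) / 2 * (M / 2) := by
          apply mul_le_mul_of_nonneg_left h9 (by linarith)
      _ ≤ M := by nlinarith
  linarith

theorem rf_half (a b w : n → ℂ) (ζ : ℂ) (hζ : normSq ζ = 1) (hw : ∑ i, normSq (w i) = 1)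
    (ω : ℂ) :
    ∃ σ : Perm n, (ω * (diagonal a + Rf w ζ * diagonal b * star (Rf w ζ)).det).re
      ≤ (ω * zz a b σ).re := by
  by_contra hc
  push Not at hc
  have c1 : ∀ i, Continuous fun ε : ℂ => a i + ε := fun i => continuous_const.add continuous_id
  have cD : Continuous fun ε : ℂ =>
      (ω * (diagonal (fun i => a i + ε) + Rf w ζ * diagonal b * star (Rf w ζ)).det).re := by
    refine Complex.continuous_re.comp (continuous_const.mul (Continuous.matrix_det ?_))
    refine Continuous.add ?_ continuous_const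
    exact Continuous.matrix_diagonal (continuous_pi c1)
  have cz : ∀ σ : Perm n, Continuous fun ε : ℂ => (ω * zz (fun i => a i + ε) b σ).re := by
    intro σ
    refine Complex.continuous_re.comp (continuous_const.mul ?_)
    unfold zz
    exact continuous_finsetProd _ fun i _ => (c1 i).add continuous_const
  have h1 : ∀ᶠ ε : ℂ in 𝓝 0, ∀ σ : Perm n, (ω * zz (fun i => a i + ε) b σ).re
      < (ω * (diagonal (fun i => a i + ε) + Rf w ζ * diagonal b * star (Rf w ζ)).det).re := by
    refine eventually_all.2 fun σ => ?_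
    refine ((cz σ).tendsto 0).eventually_lt (cD.tendsto 0) ?_
    simpa using hc σ
  have h2 : ∀ᶠ ε : ℂ in 𝓝[≠] 0, ∀ i, a i + ε + b i ≠ 0 := by
    refine eventually_all.2 fun i => ?_
    by_cases h : a i + b i = 0
    · refine eventually_nhdsWithin_of_forall fun ε hε => ?_
      have : a i + ε + b i = ε := by linear_combination h
      rw [this]
      exact hε
    · refine eventually_nhdsWithin_of_eventually_nhds ?_
      have : Continuous fun ε : ℂ => a i + ε + b i := (c1 i).add continuous_const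
      refine this.continuousAt.eventually_ne ?_
      simpa using h
  obtain ⟨ε, h3, h4⟩ := ((eventually_nhdsWithin_of_eventually_nhds h1).and h2).exists
  obtain ⟨σ, h5⟩ := rf_half1 (fun i => a i + ε) b w ζ hζ hw h4 ω
  exact absurd (h3 σ) (not_lt.2 h5)

theorem mem_hull {ι : Type*} [Fintype ι] (z : ι → ℂ) (d : ℂ)
    (h : ∀ ω : ℂ, ∃ i, (ω * d).re ≤ (ω * z i).re) : d ∈ convexHull ℝ (Set.range z) := by
  by_contra hd
  obtain ⟨f, u, h1, h2⟩ := geometric_hahn_banach_closed_point (convex_convexHull ℝ (Set.range z))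
    ((Set.finite_range z).isClosed_convexHull ℝ) hd
  have hg : ∀ v : ℂ, ((((f 1 : ℝ) : ℂ) - Complex.I * ((f Complex.I : ℝ) : ℂ)) * v).re = f v := by
    intro v
    have hv : v = v.re • (1 : ℂ) + v.im • Complex.I := by
      apply Complex.ext <;> simp
    have e : f v = v.re * f 1 + v.im * f Complex.I := by
      conv_lhs => rw [hv]
      rw [map_add, map_smul, map_smul, smul_eq_mul, smul_eq_mul]
    rw [e]
    simp [Complex.mul_re]
    ring
  obtain ⟨i, hi⟩ := h (((f 1 : ℝ) : ℂ) - Complex.I * ((f Complex.I : ℝ) : ℂ))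
  rw [hg, hg] at hi
  have h3 := h1 (z i) (subset_convexHull ℝ _ ⟨i, rfl⟩)
  linarith

theorem rf_hull (a b w : n → ℂ) (ζ : ℂ) (hζ : normSq ζ = 1) (hw : ∑ i, normSq (w i) = 1) :
    (diagonal a + Rf w ζ * diagonal b * star (Rf w ζ)).det
      ∈ convexHull ℝ (Set.range fun σ : Perm n => zz a b σ) :=
  mem_hull _ _ fun ω => rf_half a b w ζ hζ hw ω

/-- final form -/
theorem rf_main (a b x : n → ℂ) (ζ : ℂ) (hζ : normSq ζ = 1) (hx : ∑ i, normSq (x i) = 1)
    (U : Matrix n n ℂ) (hU : U ∈ unitaryGroup n ℂ) :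
    (U * diagonal a * star U + Rf x ζ * (U * diagonal b * star U) * star (Rf x ζ)).det
      ∈ convexHull ℝ (Set.range fun σ : Perm n => zz a b σ) := by
  have hU1 : star U * U = 1 := mem_unitaryGroup_iff'.1 hU
  have hU2 : U * star U = 1 := mem_unitaryGroup_iff.1 hU
  obtain ⟨w, hw⟩ : ∃ w : n → ℂ, w = star U *ᵥ x := ⟨_, rfl⟩
  have hUw : U *ᵥ w = x := by rw [hw, mulVec_mulVec, hU2, one_mulVec]
  have hsw : star w = star x ᵥ* U := by
    rw [hw, star_mulVec]
    congr 1
    rw [star_eq_conjTranspose, conjTranspose_conjTranspose]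
  have hR : Rf x ζ * U = U * Rf w ζ := by
    unfold Rf
    rw [Matrix.sub_mul, Matrix.mul_sub, Matrix.one_mul, Matrix.mul_one, Matrix.smul_mul,
      Matrix.mul_smul, vecMulVec_mul, mul_vecMulVec, hUw, hsw]
  have hR2 : star U * star (Rf x ζ) = star (Rf w ζ) * star U := by
    have := congrArg star hR
    rwa [star_mul, star_mul] at this
  have hn : ∑ i, normSq (w i) = 1 := by
    have e : ((∑ i, normSq (w i) : ℝ) : ℂ) = ((∑ i, normSq (x i) : ℝ) : ℂ) := by
      have e1 : ∀ v : n → ℂ, ((∑ i, normSq (v i) : ℝ) : ℂ) = star v ⬝ᵥ v := by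
        intro v
        rw [dotProduct]
        push_cast
        refine Finset.sum_congr rfl fun i _ => ?_
        rw [Pi.star_apply, Complex.star_def, Complex.normSq_eq_conj_mul_self]
      rw [e1, e1, hsw, ← dotProduct_mulVec, hUw]
    have e' : ∑ i, normSq (w i) = ∑ i, normSq (x i) := by exact_mod_cast e
    rw [e', hx]
  have e : U * diagonal a * star U + Rf x ζ * (U * diagonal b * star U) * star (Rf x ζ)
      = U * (diagonal a + Rf w ζ * diagonal b * star (Rf w ζ)) * star U := by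
    rw [Matrix.mul_add, Matrix.add_mul]
    congr 1
    calc Rf x ζ * (U * diagonal b * star U) * star (Rf x ζ)
        = (Rf x ζ * U) * diagonal b * (star U * star (Rf x ζ)) := by
          simp only [Matrix.mul_assoc]
      _ = _ := by rw [hR, hR2]; simp only [Matrix.mul_assoc]
  rw [e, Matrix.mul_assoc, Matrix.det_mul_comm, Matrix.mul_assoc, hU1, Matrix.mul_one]
  exact rf_hull a b w ζ hζ hn

end Pool.Agent.Helper2.RF
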